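import Mathlib
import Pool.Agent.H851.Alt.Alternating

set_option autoImplicit false

/-! # MP_5e147a_al: products of a `p`-group and a `q`-group with restricted chief factors

Let `𝒴` be the smallest class of groups which contains the finite groups, the locally soluble groups,
the groups of finitary permutations of an infinite set which contain all even finitary permutations,
and every group all of whose chief factors are in `𝒴`.  If a torsion group `G` in `𝒴` is the product
of a `p`-subgroup and a `q`-subgroup, then `G` is a `{p, q}`-group. -/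

namespace Pool.Agent.Results.MP_5e147a_al.ChiefFactors

open scoped commutatorElement

/-- The smallest class of groups which contains the finite groups, the locally soluble groups, the
groups `H` with `Alt(Ω) ≤ H ≤ FSym(Ω)`, `Ω` an infinite set, and every group all of whose chief
factors `M / N` belong to it (the chief factor is written as the image of `M` in `G / N`). -/
inductive Y : ∀ (G : Type) [Group G], Prop
  | finite (G : Type) [Group G] (h : Finite G) : Y G
  | locallySoluble (G : Type) [Group G]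
      (h : ∀ s : Finset G, Group.IsSolvable (Subgroup.closure (s : Set G))) : Y G
  | alternating (G Ω : Type) [Group G] [Infinite Ω] [DecidableEq Ω]
      (H : Subgroup (Equiv.Perm Ω)) (hfin : ∀ g ∈ H, {x | g x ≠ x}.Finite)
      (halt : ∀ (F : Finset Ω) (σ : Equiv.Perm {x // x ∈ F}), σ ∈ alternatingGroup {x // x ∈ F} →
        Equiv.Perm.ofSubtype σ ∈ H) (e : G ≃* H) : Y G
  | chief (G : Type) [Group G]
      (h : ∀ (N M : Subgroup G) [N.Normal], M.Normal → N < M →
        (∀ K : Subgroup G, K.Normal → N ≤ K → K ≤ M → K = N ∨ K = M) →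
          Y (M.map (QuotientGroup.mk' N))) : Y G

/-- `G` is the product of the subgroups `P` and `Q` -/
def IsProd {G : Type*} [Group G] (P Q : Subgroup G) : Prop :=
  ∀ g : G, ∃ a ∈ P, ∃ b ∈ Q, g = a * b

/-- in a product of a `p`-group and a `q`-group every normal subgroup is factorized -/
theorem mem_of_mem {G : Type*} [Group G] {p q : ℕ} (hp : p.Prime) (hq : q.Prime) (hpq : p ≠ q)
    {P Q : Subgroup G} (hP : IsPGroup p P) (hQ : IsPGroup q Q) (M : Subgroup G) [M.Normal]
    {a b : G} (ha : a ∈ P) (hb : b ∈ Q) (hab : a * b ∈ M) : a ∈ M ∧ b ∈ M := by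
  obtain ⟨k, hk⟩ := hP ⟨a, ha⟩
  obtain ⟨l, hl⟩ := hQ ⟨b, hb⟩
  have hk' : a ^ p ^ k = 1 := congrArg Subtype.val hk
  have hl' : b ^ q ^ l = 1 := congrArg Subtype.val hl
  have h1 : (QuotientGroup.mk' M a) = (QuotientGroup.mk' M b)⁻¹ := by
    rw [← mul_eq_one_iff_eq_inv, ← map_mul]
    exact (QuotientGroup.eq_one_iff _).2 hab
  have h2 : (QuotientGroup.mk' M a) ^ p ^ k = 1 := by rw [← map_pow, hk', map_one]
  have h3 : (QuotientGroup.mk' M a) ^ q ^ l = 1 := by
    rw [h1, inv_pow, ← map_pow, hl', map_one, inv_one]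
  have hcop : Nat.Coprime (p ^ k) (q ^ l) :=
    Nat.Coprime.pow _ _ ((Nat.coprime_primes hp hq).2 hpq)
  have h4 : QuotientGroup.mk' M a = 1 := by
    have h5 := orderOf_dvd_of_pow_eq_one h2
    have h6 := orderOf_dvd_of_pow_eq_one h3
    have h7 : orderOf (QuotientGroup.mk' M a) ∣ 1 := by
      rw [← hcop.gcd_eq_one]
      exact Nat.dvd_gcd h5 h6
    exact orderOf_eq_one_iff.1 (Nat.dvd_one.1 h7)
  have haM : a ∈ M := (QuotientGroup.eq_one_iff _).1 h4
  refine ⟨haM, ?_⟩
  have : b = a⁻¹ * (a * b) := by group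
  rw [this]
  exact mul_mem (inv_mem haM) hab

/-- the factorization of the section `M / N` -/
theorem section_prod {G : Type*} [Group G] {p q : ℕ} (hp : p.Prime) (hq : q.Prime) (hpq : p ≠ q)
    {P Q : Subgroup G} (hP : IsPGroup p P) (hQ : IsPGroup q Q) (hG : IsProd P Q)
    (N M : Subgroup G) [N.Normal] (hM : M.Normal) :
    ∃ P₁ Q₁ : Subgroup (M.map (QuotientGroup.mk' N)), IsPGroup p P₁ ∧ IsPGroup q Q₁ ∧
      IsProd P₁ Q₁ := by
  refine ⟨(P.map (QuotientGroup.mk' N)).subgroupOf _, (Q.map (QuotientGroup.mk' N)).subgroupOf _,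
    ?_, ?_, ?_⟩
  · exact (hP.map _).comap_subtype
  · exact (hQ.map _).comap_subtype
  · rintro ⟨l, m, hm, rfl⟩
    obtain ⟨a, ha, b, hb, rfl⟩ := hG m
    obtain ⟨ha', hb'⟩ := mem_of_mem hp hq hpq hP hQ M ha hb hm
    exact ⟨⟨_, a, ha', rfl⟩, ⟨a, ha, rfl⟩, ⟨_, b, hb', rfl⟩, ⟨b, hb, rfl⟩,
      Subtype.ext (map_mul _ a b)⟩

/-- a chief factor in which a given element is nontrivial -/
theorem exists_chief {G : Type*} [Group G] (g : G) (hg : g ≠ 1) :
    ∃ (N M : Subgroup G) (_ : N.Normal), M.Normal ∧ N < M ∧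
      (∀ K : Subgroup G, K.Normal → N ≤ K → K ≤ M → K = N ∨ K = M) ∧ g ∈ M ∧ g ∉ N := by
  let S : Set (Subgroup G) := {N | N.Normal ∧ g ∉ N}
  have hS : (⊥ : Subgroup G) ∈ S := ⟨inferInstance, by rwa [Subgroup.mem_bot]⟩
  obtain ⟨N, -, hN⟩ := zorn_le_nonempty₀ S (by
    intro c hc hchain y hy
    refine ⟨sSup c, ⟨?_, ?_⟩, fun z hz => le_sSup hz⟩
    · refine ⟨fun n hn x => ?_⟩
      rw [Subgroup.mem_sSup_of_directedOn ⟨y, hy⟩ hchain.directedOn] at hn ⊢
      obtain ⟨K, hK, hnK⟩ := hn
      exact ⟨K, hK, (hc hK).1.conj_mem n hnK x⟩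
    · intro hgm
      rw [Subgroup.mem_sSup_of_directedOn ⟨y, hy⟩ hchain.directedOn] at hgm
      obtain ⟨K, hK, hgK⟩ := hgm
      exact (hc hK).2 hgK) ⊥ hS
  have hNn : N.Normal := hN.prop.1
  have hgN : g ∉ N := hN.prop.2
  have hmax : ∀ K : Subgroup G, K.Normal → N ≤ K → g ∉ K → K = N := by
    intro K hK hNK hgK
    exact le_antisymm (hN.le_of_ge ⟨hK, hgK⟩ hNK) hNK
  let M : Subgroup G := N ⊔ Subgroup.normalClosure {g}
  have hMn : M.Normal := inferInstance
  have hgM : g ∈ M := (le_sup_right : _ ≤ M) (Subgroup.subset_normalClosure rfl)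
  refine ⟨N, M, hNn, hMn, lt_of_le_of_ne le_sup_left (fun h => hgN (h ▸ hgM)), ?_, hgM, hgN⟩
  intro K hK hNK hKM
  by_cases hgK : g ∈ K
  · right
    apply le_antisymm hKM
    apply sup_le hNK
    apply Subgroup.normalClosure_le_normal
    intro x hx
    rw [Set.mem_singleton_iff] at hx
    rw [hx]
    exact hgK
  · left
    exact hmax K hK hNK hgK

/-- `g` has order of the form `p ^ m * q ^ n` (up to divisibility) -/
def Good {G : Type*} [Group G] (p q : ℕ) (g : G) : Prop := ∃ m n : ℕ, g ^ (p ^ m * q ^ n) = 1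

theorem exists_prime_order {G : Type*} [Group G] {p q : ℕ} (hp : p.Prime) (hq : q.Prime)
    (hpq : p ≠ q) {g : G} (hg : IsOfFinOrder g) (h : ¬ Good p q g) :
    ∃ r : ℕ, r.Prime ∧ r ≠ p ∧ r ≠ q ∧ ∃ x : G, orderOf x = r := by
  by_contra hcon
  push Not at hcon
  apply h
  have hn : orderOf g ≠ 0 := hg.orderOf_pos.ne'
  have hpr : ∀ r : ℕ, r.Prime → r ∣ orderOf g → r = p ∨ r = q := by
    intro r hr hrd
    by_contra hc
    push Not at hc
    have hx : orderOf (g ^ (orderOf g / r)) = r := by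
      have hne : orderOf g / r ≠ 0 := by
        rw [Nat.div_ne_zero_iff]
        exact ⟨hr.ne_zero, Nat.le_of_dvd (Nat.pos_of_ne_zero hn) hrd⟩
      rw [orderOf_pow_of_dvd hne (Nat.div_dvd_of_dvd hrd), Nat.div_div_self hrd hn]
    exact hcon r hr hc.1 hc.2 _ hx
  refine ⟨(orderOf g).factorization p, (orderOf g).factorization q, ?_⟩
  have h1 : orderOf g ∣ p ^ (orderOf g).factorization p * q ^ (orderOf g).factorization q := by
    have hcop : Nat.Coprime (p ^ (orderOf g).factorization p) (q ^ (orderOf g).factorization q) :=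
      Nat.Coprime.pow _ _ ((Nat.coprime_primes hp hq).2 hpq)
    have hne : p ^ (orderOf g).factorization p * q ^ (orderOf g).factorization q ≠ 0 :=
      mul_ne_zero (pow_ne_zero _ hp.ne_zero) (pow_ne_zero _ hq.ne_zero)
    rw [← Nat.factorization_le_iff_dvd hn hne]
    intro r
    by_cases hr : r ∣ orderOf g ∧ r.Prime
    · rw [Nat.factorization_mul (pow_ne_zero _ hp.ne_zero) (pow_ne_zero _ hq.ne_zero),
        Nat.Prime.factorization_pow hp, Nat.Prime.factorization_pow hq, Finsupp.add_apply]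
      rcases hpr r hr.2 hr.1 with rfl | rfl
      · rw [Finsupp.single_eq_same]
        omega
      · rw [Finsupp.single_eq_same]
        omega
    · have : (orderOf g).factorization r = 0 := by
        by_cases hr' : r.Prime
        · exact Nat.factorization_eq_zero_of_not_dvd (fun h => hr ⟨h, hr'⟩)
        · exact Nat.factorization_eq_zero_of_not_prime _ hr'
      omega
  exact orderOf_dvd_iff_pow_eq_one.1 h1

theorem not_good {G : Type*} [Group G] {p q r : ℕ} (hp : p.Prime) (hq : q.Prime)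
    (hr : r.Prime) (hrp : r ≠ p) (hrq : r ≠ q) {x : G} (hx : orderOf x = r) : ¬ Good p q x := by
  rintro ⟨m, n, h⟩
  have h1 : r ∣ p ^ m * q ^ n := hx ▸ orderOf_dvd_of_pow_eq_one h
  rcases (Nat.Prime.dvd_mul hr).1 h1 with h2 | h2
  · exact hrp ((Nat.prime_dvd_prime_iff_eq hr hp).1 (hr.dvd_of_dvd_pow h2))
  · exact hrq ((Nat.prime_dvd_prime_iff_eq hr hq).1 (hr.dvd_of_dvd_pow h2))

/-- an element of prime order `r` keeps its order in a section in which it is nontrivial -/
theorem order_section {G : Type*} [Group G] {r : ℕ} (hr : r.Prime) {x : G} (hx : orderOf x = r)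
    (N M : Subgroup G) [N.Normal] (hxM : x ∈ M) (hxN : x ∉ N) :
    orderOf (⟨QuotientGroup.mk' N x, x, hxM, rfl⟩ : M.map (QuotientGroup.mk' N)) = r := by
  rw [← Subgroup.orderOf_coe]
  change orderOf (QuotientGroup.mk' N x) = r
  have h1 : orderOf (QuotientGroup.mk' N x) ∣ r := by
    rw [← hx]
    exact orderOf_map_dvd _ x
  rcases (Nat.dvd_prime hr).1 h1 with h2 | h2
  · exfalso
    apply hxN
    exact (QuotientGroup.eq_one_iff _).1 (orderOf_eq_one_iff.1 h2)
  · exact h2

theorem good_finite {G : Type*} [Group G] [Finite G] {p q : ℕ} (hp : p.Prime) (hq : q.Prime)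
    (hpq : p ≠ q) {P Q : Subgroup G} (hP : IsPGroup p P) (hQ : IsPGroup q Q) (hG : IsProd P Q)
    (g : G) : Good p q g := by
  have : Fact p.Prime := ⟨hp⟩
  have : Fact q.Prime := ⟨hq⟩
  obtain ⟨k, hk⟩ := IsPGroup.iff_card.1 hP
  obtain ⟨l, hl⟩ := IsPGroup.iff_card.1 hQ
  have hbij : Function.Bijective (fun ab : P × Q => (ab.1 : G) * ab.2) := by
    constructor
    · rintro ⟨a, b⟩ ⟨a', b'⟩ hab
      have hab' : (a : G) * b = a' * b' := hab
      have h1 : ((a' : G)⁻¹ * a) * (b * (b' : G)⁻¹) ∈ (⊥ : Subgroup G) := by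
        rw [Subgroup.mem_bot]
        calc ((a' : G)⁻¹ * a) * (b * (b' : G)⁻¹) = (a' : G)⁻¹ * (a * b) * (b' : G)⁻¹ := by group
          _ = 1 := by rw [hab']; group
      obtain ⟨h2, h3⟩ := mem_of_mem hp hq hpq hP hQ ⊥
        (mul_mem (inv_mem a'.2) a.2) (mul_mem b.2 (inv_mem b'.2)) h1
      rw [Subgroup.mem_bot] at h2 h3
      have h4 : a = a' := Subtype.ext (inv_mul_eq_one.1 h2).symm
      have h5 : b = b' := Subtype.ext (mul_inv_eq_one.1 h3)
      rw [h4, h5]
    · intro g
      obtain ⟨a, ha, b, hb, rfl⟩ := hG g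
      exact ⟨(⟨a, ha⟩, ⟨b, hb⟩), rfl⟩
  refine ⟨k, l, ?_⟩
  have hcard : Nat.card G = p ^ k * q ^ l := by
    rw [← Nat.card_eq_of_bijective _ hbij, Nat.card_prod, hk, hl]
  rw [← hcard]
  exact pow_card_eq_one'

theorem normalClosure_finite {G : Type*} [Group G] (c x : G)
    (hx : x ∈ Subgroup.normalClosure ({c} : Set G)) :
    ∃ T : Finset G, x ∈ Subgroup.closure ((fun t => t * c * t⁻¹) '' (T : Set G)) := by
  classical
  unfold Subgroup.normalClosure at hx
  induction hx using Subgroup.closure_induction with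
  | mem x hx =>
    rw [Group.mem_conjugatesOfSet_iff] at hx
    obtain ⟨a, ha, hax⟩ := hx
    rw [Set.mem_singleton_iff] at ha
    subst ha
    obtain ⟨t, ht⟩ := isConj_iff.1 hax
    exact ⟨{t}, Subgroup.subset_closure ⟨t, by simp, ht⟩⟩
  | one => exact ⟨∅, one_mem _⟩
  | mul x y _ _ hx hy =>
    obtain ⟨T, hT⟩ := hx
    obtain ⟨T', hT'⟩ := hy
    refine ⟨T ∪ T', mul_mem ?_ ?_⟩
    · exact Subgroup.closure_mono (Set.image_mono (by simp)) hT
    · exact Subgroup.closure_mono (Set.image_mono (by simp)) hT'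
  | inv x _ hx =>
    obtain ⟨T, hT⟩ := hx
    exact ⟨T, inv_mem hT⟩

/-- a minimal normal subgroup of a locally soluble group is abelian -/
theorem comm_of_minimal {G : Type*} [Group G]
    (hG : ∀ s : Finset G, Group.IsSolvable (Subgroup.closure (s : Set G)))
    (L : Subgroup G) (hL : L.Normal) (hmin : ∀ K : Subgroup G, K.Normal → K ≤ L → K = ⊥ ∨ K = L)
    {x y : G} (hx : x ∈ L) (hy : y ∈ L) : x * y = y * x := by
  classical
  by_contra hne
  set c : G := ⁅x, y⁆ with hc
  have hc1 : c ≠ 1 := fun h => hne (commutatorElement_eq_one_iff_mul_comm.1 h)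
  have hcL : c ∈ L := by
    rw [hc, commutatorElement_def]
    exact mul_mem (mul_mem (mul_mem hx hy) (inv_mem hx)) (inv_mem hy)
  have hnc : Subgroup.normalClosure {c} = L := by
    rcases hmin (Subgroup.normalClosure {c}) inferInstance
      (Subgroup.normalClosure_le_normal (by simpa using hcL)) with h | h
    · exfalso
      apply hc1
      have : c ∈ (⊥ : Subgroup G) := h ▸ Subgroup.subset_normalClosure rfl
      exact Subgroup.mem_bot.1 this
    · exact h
  obtain ⟨T, hT⟩ := normalClosure_finite c x (hnc ▸ hx)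
  obtain ⟨T', hT'⟩ := normalClosure_finite c y (hnc ▸ hy)
  let s : Finset G := T ∪ T' ∪ {x, y}
  have hsol := hG s
  set H : Subgroup G := Subgroup.closure (s : Set G) with hH
  have hxH : x ∈ H := Subgroup.subset_closure (by simp [s])
  have hyH : y ∈ H := Subgroup.subset_closure (by simp [s])
  have hcH : c ∈ H := by
    rw [hc, commutatorElement_def]
    exact mul_mem (mul_mem (mul_mem hxH hyH) (inv_mem hxH)) (inv_mem hyH)
  let c' : H := ⟨c, hcH⟩
  let D : Subgroup H := Subgroup.normalClosure {c'}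
  have hmem : ∀ U : Finset G, U ⊆ s → ∀ z : G, ∀ hz : z ∈ H,
      z ∈ Subgroup.closure ((fun t => t * c * t⁻¹) '' (U : Set G)) → (⟨z, hz⟩ : H) ∈ D := by
    intro U hU z hz hzU
    have h1 : Subgroup.closure ((fun t => t * c * t⁻¹) '' (U : Set G)) ≤ D.map H.subtype := by
      rw [Subgroup.closure_le]
      rintro _ ⟨t, ht, rfl⟩
      have htH : t ∈ H := Subgroup.subset_closure (hU ht)
      refine ⟨⟨t, htH⟩ * c' * ⟨t, htH⟩⁻¹, ?_, rfl⟩
      exact (inferInstance : D.Normal).conj_mem c' (Subgroup.subset_normalClosure rfl) _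
    obtain ⟨d, hd, hdz⟩ := h1 hzU
    have : (⟨z, hz⟩ : H) = d := Subtype.ext hdz.symm
    rw [this]
    exact hd
  have hxD : (⟨x, hxH⟩ : H) ∈ D := hmem T (by intro t ht; simp [s, ht]) x hxH hT
  have hyD : (⟨y, hyH⟩ : H) ∈ D := hmem T' (by intro t ht; simp [s, ht]) y hyH hT'
  have hcD : c' ∈ ⁅D, D⁆ := by
    have : c' = ⁅(⟨x, hxH⟩ : H), (⟨y, hyH⟩ : H)⁆ := Subtype.ext rfl
    rw [this]
    exact Subgroup.commutator_mem_commutator hxD hyD
  have hle : D ≤ ⁅D, D⁆ := Subgroup.normalClosure_le_normal (by simpa using hcD)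
  by_cases hD : D = ⊥
  · apply hc1
    have : c' ∈ (⊥ : Subgroup H) := hD ▸ Subgroup.subset_normalClosure rfl
    exact congrArg Subtype.val (Subgroup.mem_bot.1 this)
  · exact absurd hle (not_le_of_gt (Group.IsSolvable.commutator_lt_of_ne_bot hD))

theorem good_locallySoluble {G : Type*} [Group G]
    (hsol : ∀ s : Finset G, Group.IsSolvable (Subgroup.closure (s : Set G)))
    (htor : ∀ g : G, IsOfFinOrder g) {p q : ℕ} (hp : p.Prime) (hq : q.Prime)
    (hpq : p ≠ q) {P Q : Subgroup G} (hP : IsPGroup p P) (hQ : IsPGroup q Q) (hG : IsProd P Q)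
    (g : G) : Good p q g := by
  classical
  by_contra hcon
  obtain ⟨r, hr, hrp, hrq, x, hx⟩ := exists_prime_order hp hq hpq (htor g) hcon
  have hx1 : x ≠ 1 := by
    rintro rfl
    rw [orderOf_one] at hx
    exact hr.one_lt.ne hx
  obtain ⟨N, M, hN, hM, hNM, hmin, hxM, hxN⟩ := exists_chief x hx1
  obtain ⟨P₁, Q₁, hP₁, hQ₁, hprod⟩ := section_prod hp hq hpq hP hQ hG N M hM
  refine not_good hp hq hr hrp hrq (order_section hr hx N M hxM hxN) ?_
  obtain ⟨a, ha, b, hb, hab⟩ := hprod ⟨QuotientGroup.mk' N x, x, hxM, rfl⟩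
  obtain ⟨k, hk⟩ := hP₁ ⟨a, ha⟩
  obtain ⟨l, hl⟩ := hQ₁ ⟨b, hb⟩
  have hk' : a ^ p ^ k = 1 := congrArg Subtype.val hk
  have hl' : b ^ q ^ l = 1 := congrArg Subtype.val hl
  have hsolN : ∀ s : Finset (G ⧸ N), Group.IsSolvable (Subgroup.closure (s : Set (G ⧸ N))) := by
    intro s
    obtain ⟨t, ht⟩ : ∃ t : Finset G, t.image (QuotientGroup.mk' N) = s := by
      refine ⟨s.image (fun z => z.out), ?_⟩
      have h0 : (QuotientGroup.mk' N) ∘ (fun z : G ⧸ N => z.out) = id := by
        funext z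
        exact Quotient.out_eq z
      rw [Finset.image_image, h0, Finset.image_id]
    have h1 : Subgroup.closure (s : Set (G ⧸ N)) =
        (Subgroup.closure (t : Set G)).map (QuotientGroup.mk' N) := by
      rw [MonoidHom.map_closure, ← ht, Finset.coe_image]
    rw [h1]
    have := hsol t
    exact Group.isSolvable_of_surjective (f := (QuotientGroup.mk' N).subgroupMap
      (Subgroup.closure (t : Set G))) (MonoidHom.subgroupMap_surjective _ _)
  have hcomm : (a : G ⧸ N) * b = b * a := by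
    refine comm_of_minimal hsolN (M.map (QuotientGroup.mk' N))
      (hM.map _ (QuotientGroup.mk'_surjective N)) ?_ a.2 b.2
    intro K hK hKM
    have h1 := hmin (K.comap (QuotientGroup.mk' N)) (hK.comap _)
      (by
        intro n hn
        rw [Subgroup.mem_comap]
        have : QuotientGroup.mk' N n = 1 := (QuotientGroup.eq_one_iff _).2 hn
        rw [this]
        exact one_mem _)
      (by
        intro z hz
        obtain ⟨m, hm, hmz⟩ := hKM hz
        have : m⁻¹ * z ∈ N := QuotientGroup.eq.1 hmz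
        have h2 : z = m * (m⁻¹ * z) := by group
        rw [h2]
        exact mul_mem hm (hNM.le this))
    have h3 : (K.comap (QuotientGroup.mk' N)).map (QuotientGroup.mk' N) = K :=
      Subgroup.map_comap_eq_self_of_surjective (QuotientGroup.mk'_surjective N) K
    rcases h1 with h1 | h1
    · left
      rw [← h3, h1]
      rw [eq_bot_iff]
      rintro _ ⟨n, hn, rfl⟩
      exact (QuotientGroup.eq_one_iff _).2 hn
    · right
      rw [← h3, h1]
  refine ⟨k, l, ?_⟩
  rw [hab]
  have hcomm' : Commute a b := Subtype.ext hcomm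
  rw [hcomm'.mul_pow, pow_mul, hk', one_pow, one_mul, mul_comm, pow_mul, hl', one_pow]

/-- **Main theorem.** Let `G` be a torsion group in the class `Y` (the smallest class which contains
the finite groups, the locally soluble groups, the infinite finitary alternating and symmetric groups
and every group all of whose chief factors are in the class), and let `G = P Q` for a `p`-subgroup `P` and a `q`-subgroup `Q`, `p ≠ q` primes.
Then every element of `G` has order of the form `p ^ m * q ^ n`. -/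
theorem result (G : Type) [Group G] (hY : Y G) (htor : ∀ g : G, IsOfFinOrder g) (p q : ℕ)
    (hp : p.Prime) (hq : q.Prime) (hpq : p ≠ q) (P Q : Subgroup G)
    (hP : IsPGroup p P) (hQ : IsPGroup q Q) (hG : ∀ g : G, ∃ a ∈ P, ∃ b ∈ Q, g = a * b)
    (g : G) : ∃ m n : ℕ, g ^ (p ^ m * q ^ n) = 1 := by
  induction hY with
  | finite G h => exact good_finite hp hq hpq hP hQ hG g
  | locallySoluble G h => exact good_locallySoluble h htor hp hq hpq hP hQ hG g
  | alternating G Ω H hfin halt e =>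
    exfalso
    let f : G →* Equiv.Perm Ω := H.subtype.comp e.toMonoidHom
    refine Pool.Agent.H851.Alt.alternating_not_product Ω H hfin halt p q hp hq hpq (P.map f)
      (Q.map f) ?_ (hP.map f) (hQ.map f) ?_
    · rintro _ ⟨a, _, rfl⟩
      exact (e a).2
    · intro h hh
      obtain ⟨a, ha, b, hb, hab⟩ := hG (e.symm ⟨h, hh⟩)
      refine ⟨f a, ⟨a, ha, rfl⟩, f b, ⟨b, hb, rfl⟩, ?_⟩
      rw [← map_mul, ← hab]
      change h = ((e (e.symm ⟨h, hh⟩) : H) : Equiv.Perm Ω)
      rw [MulEquiv.apply_symm_apply]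
  | chief G h ih =>
    by_contra hcon
    obtain ⟨r, hr, hrp, hrq, x, hx⟩ := exists_prime_order hp hq hpq (htor g) hcon
    have hx1 : x ≠ 1 := by
      rintro rfl
      rw [orderOf_one] at hx
      exact hr.one_lt.ne hx
    obtain ⟨N, M, hN, hM, hNM, hmin, hxM, hxN⟩ := exists_chief x hx1
    obtain ⟨P₁, Q₁, hP₁, hQ₁, hprod⟩ := section_prod hp hq hpq hP hQ hG N M hM
    refine not_good hp hq hr hrp hrq (order_section hr hx N M hxM hxN) ?_
    refine ih N M hM hNM hmin ?_ P₁ Q₁ hP₁ hQ₁ hprod _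
    rintro ⟨_, m, hm, rfl⟩
    obtain ⟨n, hn, h1⟩ := isOfFinOrder_iff_pow_eq_one.1 (htor m)
    refine isOfFinOrder_iff_pow_eq_one.2 ⟨n, hn, Subtype.ext ?_⟩
    change (QuotientGroup.mk' N m) ^ n = 1
    rw [← map_pow, h1, map_one]

end Pool.Agent.Results.MP_5e147a_al.ChiefFactors
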