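import Mathlib
import Pool.Agent.H660P.Section

set_option autoImplicit false

/-!
# MP_5e147a_al: locally finite products of a `p`-subgroup and a `q`-subgroup

Reduction of the question to countable infinite simple groups, and positive answers.
-/

open Pool.Agent.H660P

namespace Pool.Agent.Results.MP_5e147a_al.SimpleReduction

/-- `G` is locally finite and `G = A B` with a `p`-subgroup `A` and a `q`-subgroup `B`. -/
structure IsProd (p q : ℕ) (G : Type) [Group G] (A B : Subgroup G) : Prop where
  locFin : ∀ s : Finset G, ((Subgroup.closure (s : Set G) : Subgroup G) : Set G).Finite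
  left : IsPGroup p A
  right : IsPGroup q B
  mul : ∀ g : G, ∃ a ∈ A, ∃ b ∈ B, g = a * b

/-- Every element of `G` has order `p ^ m * q ^ n`. -/
def IsPQ (p q : ℕ) (G : Type) [Group G] : Prop := ∀ g : G, ∃ m n : ℕ, g ^ (p ^ m * q ^ n) = 1

/-- `M = (A ∩ M)(B ∩ M)` -/
def Factorized {G : Type} [Group G] (A B M : Subgroup G) : Prop :=
  ∀ g ∈ M, ∃ a ∈ A ⊓ M, ∃ b ∈ B ⊓ M, g = a * b

lemma not_isPQ {p q : ℕ} (hp : p.Prime) (hq : q.Prime) {S : Type} [Group S] {r : ℕ}
    (hr : r.Prime) (hrp : r ≠ p) (hrq : r ≠ q) {x : S} (hx : orderOf x = r) : ¬ IsPQ p q S := by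
  intro h
  obtain ⟨m, n, hmn⟩ := h x
  have h1 : r ∣ p ^ m * q ^ n := by
    rw [← hx]
    exact orderOf_dvd_of_pow_eq_one hmn
  rcases (Nat.Prime.dvd_mul hr).1 h1 with h2 | h2
  · exact hrp ((Nat.prime_dvd_prime_iff_eq hr hp).1 (hr.dvd_of_dvd_pow h2))
  · exact hrq ((Nat.prime_dvd_prime_iff_eq hr hq).1 (hr.dvd_of_dvd_pow h2))

/-- All finitely generated subgroups of `G` are solvable. -/
def LocallySolvable (G : Type) [Group G] : Prop :=
  ∀ s : Finset G, Group.IsSolvable (Subgroup.closure (s : Set G))

/-- The image of `A ∩ M` in `M / N`. -/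
def img {G : Type} [Group G] (A M : Subgroup G) (N : Subgroup M) [N.Normal] :
    Subgroup (M ⧸ N) :=
  (A.subgroupOf M).map (QuotientGroup.mk' N)

/-- `x` lies in no proper factorized subgroup. -/
def Generic {G : Type} [Group G] (A B : Subgroup G) (x : G) : Prop :=
  ∀ T : Subgroup G, x ∈ T → Factorized A B T → T = ⊤

/-- `M` is the smallest factorized subgroup containing `x`, it is countable, and `M / N` is an
infinite non-commutative simple group, a product of the images of `A ∩ M` and `B ∩ M`, in which the
image of `x` has order `r` and lies in no proper factorized subgroup. -/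
structure SimpleSection (p q r : ℕ) {G : Type} [Group G] (A B : Subgroup G) (x : G)
    (M : Subgroup G) (hxM : x ∈ M) (N : Subgroup M) [N.Normal] : Prop where
  factorized : Factorized A B M
  smallest : ∀ K : Subgroup G, x ∈ K → Factorized A B K → M ≤ K
  countable : Countable M
  simple : IsSimpleGroup (M ⧸ N)
  infinite : Infinite (M ⧸ N)
  noncomm : ∃ g h : M ⧸ N, g * h ≠ h * g
  isProd : IsProd p q (M ⧸ N) (img A M N) (img B M N)
  order : orderOf ((⟨x, hxM⟩ : M) : M ⧸ N) = r
  generic : Generic (img A M N) (img B M N) ((⟨x, hxM⟩ : M) : M ⧸ N)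

/-- Let `p ≠ q` be primes.  In a locally finite group `G = A B` (`A` a `p`-subgroup, `B` a
`q`-subgroup):
(1) every normal subgroup of a factorized subgroup is factorized, and so is every intersection of
factorized subgroups;
(2) if `x ∈ G` has prime order `r ≠ p, q`, then the smallest factorized subgroup `M` containing `x`
is countable and has a normal subgroup `N` such that `M / N` is an infinite, non-commutative simple
group, again a product of a `p`-subgroup and a `q`-subgroup (the images of `A ∩ M` and `B ∩ M`), in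
which the image of `x` has order `r` and lies in no proper factorized subgroup;
(3) the answer to the question is positive for `G` if every element `g ≠ 1` lies outside of some
normal subgroup `N` of `G` such that `G / N` is finite or locally solvable; for instance if `G` is
locally solvable or residually finite.
(4) The question has a positive answer for the pair `p, q` if and only if it has a positive answer
for countable infinite simple groups with an element lying in no proper factorized subgroup. -/
theorem result (p q : ℕ) (hp : p.Prime) (hq : q.Prime) (hpq : p ≠ q) :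
    (∀ (G : Type) [Group G] (A B : Subgroup G), IsProd p q G A B →
      (∀ M N : Subgroup G, Factorized A B M → N ≤ M →
        (∀ m ∈ M, ∀ n ∈ N, m * n * m⁻¹ ∈ N) → Factorized A B N) ∧
      (∀ c : Set (Subgroup G), c.Nonempty → (∀ M ∈ c, Factorized A B M) →
        Factorized A B (sInf c)) ∧
      (∀ (r : ℕ) (x : G), r.Prime → r ≠ p → r ≠ q → orderOf x = r →
        ∃ (M : Subgroup G) (hxM : x ∈ M) (N : Subgroup M) (_ : N.Normal),
          SimpleSection p q r A B x M hxM N) ∧
      ((∀ g : G, g ≠ 1 → ∃ (N : Subgroup G) (_ : N.Normal), g ∉ N ∧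
        (Finite (G ⧸ N) ∨ LocallySolvable (G ⧸ N))) → IsPQ p q G)) ∧
    ((∀ (G : Type) [Group G] (A B : Subgroup G), IsProd p q G A B → IsPQ p q G) ↔
      (∀ (S : Type) [Group S] (A B : Subgroup S), Countable S → Infinite S → IsSimpleGroup S →
        (∃ x : S, Generic A B x) → IsProd p q S A B → IsPQ p q S)) := by
  have main : ∀ (G : Type) [Group G] (A B : Subgroup G), IsProd p q G A B →
      ∀ (r : ℕ) (x : G), r.Prime → r ≠ p → r ≠ q → orderOf x = r →
        ∃ (M : Subgroup G) (hxM : x ∈ M) (N : Subgroup M) (_ : N.Normal),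
          SimpleSection p q r A B x M hxM N := by
    intro G _ A B hG r x hr hrp hrq hx
    obtain ⟨M, hxM, N, hN, h1, h2, h3, h4, h5, h6, h7, h8, h9, h10, h11⟩ :=
      exists_section hp hq hpq hG.left hG.right hG.mul hr hrp hrq hx
    refine ⟨M, hxM, N, hN, h2, h1, h3, h4, h5, h10, ⟨?_, h6, h7, h8⟩, h9, h11⟩
    exact (LocFin.of_injective (G := G) hG.locFin M.subtype M.subtype_injective).of_surjective
      (QuotientGroup.mk' N) (QuotientGroup.mk'_surjective N)
  refine ⟨?_, ?_, ?_⟩
  · intro G _ A B hG
    refine ⟨fun M N hM hNM hn => factors_of_normal hp hq hpq hG.left hG.right hM hNM hn,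
      fun c hne hc => factors_sInf hp hq hpq hG.left hG.right c hne hc, main G A B hG, ?_⟩
    intro hres
    by_contra hcon
    obtain ⟨r, x, hr, hrp, hrq, hx⟩ := exists_prime_order (p := p) (q := q) (S := G) hG.locFin hcon
    have hx1 : x ≠ 1 := by
      rintro rfl
      rw [orderOf_one] at hx
      exact hr.one_lt.ne hx
    obtain ⟨N, hN, hxN, hcase⟩ := hres x hx1
    have hQ : IsProd p q (G ⧸ N) (A.map (QuotientGroup.mk' N)) (B.map (QuotientGroup.mk' N)) := by
      refine ⟨?_, hG.left.map _, hG.right.map _, ?_⟩
      · exact LocFin.of_surjective (G := G) hG.locFin (QuotientGroup.mk' N)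
          (QuotientGroup.mk'_surjective N)
      · intro g
        obtain ⟨g', rfl⟩ := QuotientGroup.mk'_surjective N g
        obtain ⟨a, ha, b, hb, rfl⟩ := hG.mul g'
        exact ⟨_, ⟨a, ha, rfl⟩, _, ⟨b, hb, rfl⟩, by rw [← map_mul]⟩
    have hord : orderOf (QuotientGroup.mk' N x) = r := by
      have : Fact r.Prime := ⟨hr⟩
      refine orderOf_eq_prime ?_ (fun h0 => hxN ((QuotientGroup.eq_one_iff x).1 h0))
      rw [← map_pow, ← hx, pow_orderOf_eq_one, map_one]
    rcases hcase with hfin | hsolv
    · exact not_finite_of_order hp hq hpq hQ.left hQ.right hQ.mul hr hrp hrq hord hfin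
    · obtain ⟨M, hxM, K, hK, hsec⟩ := main (G ⧸ N) _ _ hQ r _ hr hrp hrq hord
      obtain ⟨g, g', hgg⟩ := hsec.noncomm
      have h4 : IsSimpleGroup (M ⧸ K) := hsec.simple
      have hS : LocSolv (M ⧸ K) :=
        (LocSolv.of_injective (G := G ⧸ N) hsolv M.subtype M.subtype_injective).of_surjective
          (QuotientGroup.mk' K) (QuotientGroup.mk'_surjective K)
      exact hgg (comm_of_simple_locSolv hS g g')
  · intro h S _ A B _ _ _ _ hS
    exact h S A B hS
  · intro h G _ A B hG
    by_contra hcon
    obtain ⟨r, x, hr, hrp, hrq, hx⟩ := exists_prime_order (p := p) (q := q) (S := G) hG.locFin hcon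
    obtain ⟨M, hxM, N, hN, hsec⟩ := main G A B hG r x hr hrp hrq hx
    have hcM : Countable M := hsec.countable
    have hc : Countable (M ⧸ N) := (QuotientGroup.mk'_surjective N).countable
    exact not_isPQ hp hq hr hrp hrq hsec.order
      (h (M ⧸ N) _ _ hc hsec.infinite hsec.simple ⟨_, hsec.generic⟩ hsec.isProd)

end Pool.Agent.Results.MP_5e147a_al.SimpleReduction
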